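import Pool.Agent.H2.PenroseProof

set_option autoImplicit false

namespace Pool.Agent.Results.MP_daa8b9_co.Penrose

/-- **Szegedy's question Q1 of MP_daa8b9_co has a negative answer**: there is a connected plane
cubic graph `G` (with 14 vertices) such that the number of 3-edge-colourings of `G` does not divide
`P_G(-1)`, the value at `-1` of the Penrose polynomial. -/
theorem result : ∃ (D : Type) (_ : Fintype D) (_ : DecidableEq D) (σ α : Equiv.Perm D),
    IsCubicMap σ α ∧ IsConnectedMap σ α ∧ IsPlaneMap σ α ∧
    ¬ ((numColourings σ α : ℤ) ∣ penrose σ α (-1)) := by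
  refine ⟨Fin 42, inferInstance, inferInstance, σ₀, α₀, cubic₀, connected₀, plane₀, ?_⟩
  rw [numColourings_eq, penrose_eq]
  decide

end Pool.Agent.Results.MP_daa8b9_co.Penrose
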